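import Pool.Agent.W_4481e3_q87.GoR
import Pool.Agent.W_4481e3_tab.T8

/-!
Tree s10o8, data 6.
-/

namespace Pool.Agent.W_4481e3_rt.s10o8

open Pool.Agent.W_4481e3_q25.EvR

theorem k124 : ckO Pool.Agent.W_4481e3_tab.T8.tab 1144800 2220640 16777216 4194304 5931008 8388608 15 1572864 524288 524288 524288 511768002 529698652 3586130 7172260 268435456 268435456 16777216 16777216 8472495 8472495 0x102000c02000c03000c1203000c03000c03000c03000c04000c21203000c03000c05029c04000c05070c21204000c03000c04000c04000c05000c212105000c04000c05000c06000c12106000c06000c1206000c06000c106000c06000c06000c21205000c06000c206000c106000c06000c06000c2125121212103000c04000c203000c04000c104000c05029c05000c05000c05070c21212104000c04000c204000c04000c04000c04000c21205000c05000c06000c1206000c06000c2106000c06000c206000c06000cb1212104000c04000c06000c104000c06000c12104000c04000c06000c104000c06000c121206000c06000c107000cbb212bb1b2108000cbb2106000c06000c2bb212bb212803077782b71218009a782fa7204000c05029c205029c05029c2105029c05029c06000c206000c1205029c05029c105029cb2b128209478c1f712818d479258705029c05029c05029c2105029c05029c05029c21206000c06000c206000c06000c07000c2107000c07000cb212106000cb2b1218274c79ce3705029cb2b1b2b12106000c06000c206000cb2106000cb1b2b12bb21816a677a5d7bb2b12bb2121280d887a8487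 = true := by decide +kernel

theorem k126 : ckO Pool.Agent.W_4481e3_tab.T8.tab 1144800 2220640 16777216 4194304 5931008 8388608 5 1572864 524288 524288 524288 515354132 515354132 7172260 7172260 268435456 268435456 16777216 16777216 8472495 8472495 0x102000c02000c202000c02000c03000c202000c03000c2121 = true := by decide +kernel

theorem k129 : ckO Pool.Agent.W_4481e3_tab.T8.tab 1144800 2220640 16777216 4194304 5931008 8388608 5 1572864 524288 524288 524288 522526392 493837352 14344520 14344520 268435456 268435456 16777216 16777216 8472495 8472495 0x100000c00000c01000c201000c01029c21201000c01007c01003c121 = true := by decide +kernel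

theorem k131 : ckO Pool.Agent.W_4481e3_tab.T8.tab 1144800 2220640 16777216 4194304 5931008 8388608 8 1572864 524288 524288 524288 493837352 508181872 14344520 28689040 268435456 268435456 16777216 16777216 8472495 8472495 0x100000c00000c00000c00000c00000c02000c12100000c00000c200000c00000c202000c102000c02000c203000c04000c2121212 = true := by decide +kernel

end Pool.Agent.W_4481e3_rt.s10o8
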